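import Mathlib

set_option autoImplicit false

namespace Pool.Agent.Results.MP_dca5dd_al.LengthBound

open Finset

universe u

section Defs

variable {n : ℕ} {V : Type u} [AddCommGroup V] [Module ℂ V]

/-- The `n`-ary algebra with product `μ` is `(A,C)`-commutative: swapping the arguments in two
different positions of `A` changes the sign of the product, and swapping the arguments in two
different positions of `C` leaves it unchanged. -/
def IsACCommutative (A C : Finset (Fin n))
    (μ : MultilinearMap ℂ (fun _ : Fin n => V) V) : Prop :=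
  (∀ i ∈ A, ∀ j ∈ A, i ≠ j → ∀ x : Fin n → V, μ (x ∘ Equiv.swap i j) = -μ x) ∧
  (∀ i ∈ C, ∀ j ∈ C, i ≠ j → ∀ x : Fin n → V, μ (x ∘ Equiv.swap i j) = μ x)

/-- `IsWord μ S l w`: the element `w` is (the value of) a word of length `l` in the set `S`. -/
inductive IsWord (μ : MultilinearMap ℂ (fun _ : Fin n => V) V) (S : Set V) : ℕ → V → Prop
  | letter {s : V} (hs : s ∈ S) : IsWord μ S 1 s
  | bracket {l : Fin n → ℕ} {w : Fin n → V} (h : ∀ p, IsWord μ S (l p) (w p)) :
      IsWord μ S (∑ p, l p) (μ w)

/-- `L μ S i` is the span of the words of length at most `i`. -/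
def L (μ : MultilinearMap ℂ (fun _ : Fin n => V) V) (S : Set V) (i : ℕ) : Submodule ℂ V :=
  Submodule.span ℂ {w | ∃ l ≤ i, IsWord μ S l w}

/-- The length of a generating set: the least `i ≥ 1` with `L μ S i` the whole algebra. -/
noncomputable def setLength (μ : MultilinearMap ℂ (fun _ : Fin n => V) V) (S : Set V) : ℕ :=
  sInf {i | 1 ≤ i ∧ L μ S i = ⊤}

/-- The length of the algebra: the supremum of the lengths of its finite generating sets. -/
noncomputable def algLength (μ : MultilinearMap ℂ (fun _ : Fin n => V) V) : ℕ∞ :=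
  ⨆ (S : Finset V) (_ : (⋃ i, (L μ (S : Set V) i : Set V)) = Set.univ),
    (setLength μ (S : Set V) : ℕ∞)

end Defs

/-- For `N = p_1 ^ a_1 * ... * p_r ^ a_r` with `a_r ≠ 0`, this is `r` (`p_i` is the `i`-th prime,
and `Nat.primeCounting p_i = i`). -/
def topIndex (N : ℕ) : ℕ := N.primeFactors.sup Nat.primeCounting

/-- The generalised Fibonacci numbers `F_N`: `F_N m = 1` for `m ≤ r` and
`F_N m = a_1 F_N (m-1) + ... + a_r F_N (m-r)` for `m > r`, where
`N = p_1 ^ a_1 * ... * p_r ^ a_r`. -/
noncomputable def genFib (N : ℕ) (m : ℕ) : ℕ :=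
  if _h : m ≤ topIndex N then 1
  else ∑ i : Fin (topIndex N), N.factorization (Nat.nth Nat.Prime i) * genFib N (m - 1 - i)
termination_by m
decreasing_by omega

/-- `N_{n,a} = 2 ^ (n - a + 1) * 3 * 5 * ... * p_a`. -/
noncomputable def Nna (n a : ℕ) : ℕ :=
  2 ^ (n - a + 1) * ∏ i ∈ Finset.Ico 1 a, Nat.nth Nat.Prime i

/-- `a = |A|` if `|A| ≥ 2` and `a = 1` if `|A| = 0`. -/
def effCard (c : ℕ) : ℕ := if 2 ≤ c then c else 1

section Proof

variable {n : ℕ} {V : Type u} [AddCommGroup V] [Module ℂ V]

lemma L_mono (μ : MultilinearMap ℂ (fun _ : Fin n => V) V) (S : Set V) : Monotone (L μ S) := by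
  intro i j hij
  apply Submodule.span_mono
  rintro w ⟨l, hl, hw⟩
  exact ⟨l, hl.trans hij, hw⟩

lemma IsWord.pos {μ : MultilinearMap ℂ (fun _ : Fin n => V) V} {S : Set V} (hn : 0 < n)
    {l : ℕ} {w : V} (h : IsWord μ S l w) : 1 ≤ l := by
  induction h with
  | letter hs => exact le_rfl
  | @bracket l w h ih =>
    calc 1 ≤ l ⟨0, hn⟩ := ih _
      _ ≤ ∑ p, l p := Finset.single_le_sum (f := l) (fun _ _ => Nat.zero_le _) (Finset.mem_univ _)

lemma L_zero (μ : MultilinearMap ℂ (fun _ : Fin n => V) V) (S : Set V) (hn : 0 < n) :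
    L μ S 0 = ⊥ := by
  rw [L, Submodule.span_eq_bot]
  rintro w ⟨l, hl, hw⟩
  have := hw.pos hn
  omega

/-- A multilinear map whose values on `∏ B p` lie in `P` has all its values on
`∏ span (B p)` in `P`. -/
lemma multilinear_span (μ : MultilinearMap ℂ (fun _ : Fin n => V) V) (P : Submodule ℂ V)
    (B : Fin n → Set V) (hB : ∀ b : Fin n → V, (∀ p, b p ∈ B p) → μ b ∈ P)
    (w : Fin n → V) (hw : ∀ p, w p ∈ Submodule.span ℂ (B p)) : μ w ∈ P := by
  classical
  suffices H : ∀ s : Finset (Fin n), ∀ w : Fin n → V,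
      (∀ p ∈ s, w p ∈ Submodule.span ℂ (B p)) → (∀ p ∉ s, w p ∈ B p) → μ w ∈ P by
    exact H Finset.univ w (fun p _ => hw p) (fun p hp => absurd (Finset.mem_univ p) hp)
  intro s
  induction s using Finset.induction_on with
  | empty => intro w _ h2; exact hB w (fun p => h2 p (Finset.notMem_empty p))
  | @insert a s ha ih =>
    intro w h1 h2
    have key : ∀ x ∈ Submodule.span ℂ (B a), μ (Function.update w a x) ∈ P := by
      intro x hx
      induction hx using Submodule.span_induction with
      | mem x hx =>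
        apply ih
        · intro p hp
          have : p ≠ a := fun h => ha (h ▸ hp)
          rw [Function.update_of_ne this]
          exact h1 p (Finset.mem_insert_of_mem hp)
        · intro p hp
          by_cases hpa : p = a
          · subst hpa; simpa using hx
          · rw [Function.update_of_ne hpa]
            exact h2 p (by simp [hpa, hp])
      | zero => rw [μ.map_update_zero]; exact P.zero_mem
      | add x y _ _ hx hy => rw [μ.map_update_add]; exact P.add_mem hx hy
      | smul c x _ hx => rw [μ.map_update_smul]; exact P.smul_mem c hx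
    have := key (w a) (h1 a (Finset.mem_insert_self a s))
    rwa [Function.update_eq_self] at this

/-- The filtration is compatible with the product. -/
lemma mem_L_sum (μ : MultilinearMap ℂ (fun _ : Fin n => V) V) (S : Set V) (l : Fin n → ℕ)
    (x : Fin n → V) (hx : ∀ p, x p ∈ L μ S (l p)) : μ x ∈ L μ S (∑ p, l p) := by
  apply multilinear_span μ _ (fun p => {w | ∃ l' ≤ l p, IsWord μ S l' w}) _ x hx
  intro b hb
  choose l' hl' hb' using hb
  apply Submodule.subset_span
  exact ⟨∑ p, l' p, Finset.sum_le_sum (fun p _ => hl' p), IsWord.bracket hb'⟩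

/-- Bases adapted to an increasing filtration. -/
lemma exists_adapted [FiniteDimensional ℂ V] (M : ℕ → Submodule ℂ V) (hM : Monotone M)
    (h0 : M 0 = ⊥) : ∃ B : ℕ → Finset V, Monotone B ∧
      (∀ i, LinearIndepOn ℂ id (B i : Set V)) ∧
      (∀ i, Submodule.span ℂ (B i : Set V) = M i) := by
  classical
  have step : ∀ i, ∀ b : {b : Finset V // LinearIndepOn ℂ id (b : Set V) ∧
      Submodule.span ℂ (b : Set V) = M i}, ∃ b' : {b : Finset V // LinearIndepOn ℂ id (b : Set V) ∧
      Submodule.span ℂ (b : Set V) = M (i + 1)}, b.1 ⊆ b'.1 := by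
    rintro i ⟨b, hb, hb'⟩
    have hsub : (b : Set V) ⊆ (M (i + 1) : Set V) := by
      intro x hx
      have : x ∈ M i := hb' ▸ Submodule.subset_span hx
      exact hM (Nat.le_succ i) this
    obtain ⟨c, hc1, hc2, hc3, hc4⟩ := exists_linearIndepOn_extension hb hsub
    simp only [Set.image_id] at hc3
    have hfin : c.Finite := hc4.setFinite
    refine ⟨⟨hfin.toFinset, by simpa using hc4, ?_⟩, ?_⟩
    · rw [hfin.coe_toFinset]
      apply le_antisymm
      · rw [Submodule.span_le]; exact hc1
      · exact hc3
    · intro x hx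
      simpa using hc2 hx
  choose f hf using step
  let B : (i : ℕ) → {b : Finset V // LinearIndepOn ℂ id (b : Set V) ∧
      Submodule.span ℂ (b : Set V) = M i} :=
    fun i => Nat.rec ⟨∅, by simp, by simp [h0]⟩ (fun i b => f i b) i
  exact ⟨fun i => (B i).1, monotone_nat_of_le_succ (fun i => hf i (B i)),
    fun i => (B i).2.1, fun i => (B i).2.2⟩

omit [AddCommGroup V] [Module ℂ V] in
/-- The combinatorial estimate: distinct elements of `B i` have small total rank. -/
lemma sum_rank_le (F : ℕ → ℕ) (hF : Monotone F) (B : ℕ → Finset V) (hB : Monotone B)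
    (i : ℕ) (h : V → ℕ) (X : Finset V) (hX : X ⊆ B i) (hXi : ∀ x ∈ X, h x ≤ i)
    (hX1 : ∀ x ∈ X, h x ≤ F ((B (h x - 1)).card + 1)) (hX2 : ∀ x ∈ X, x ∉ B (h x - 1)) :
    ∑ x ∈ X, h x ≤ ∑ q ∈ Finset.range X.card, F ((B i).card - q) := by
  classical
  revert hX hXi hX1 hX2
  induction X using Finset.induction_on_min_value h with
  | empty => intros; simp
  | @insert a s ha hmin ih =>
    intro hX hXi hX1 hX2
    rw [Finset.sum_insert ha, Finset.card_insert_of_notMem ha, Finset.sum_range_succ, add_comm]
    apply Nat.add_le_add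
    · exact ih (fun x hx => hX (Finset.mem_insert_of_mem hx))
        (fun x hx => hXi x (Finset.mem_insert_of_mem hx))
        (fun x hx => hX1 x (Finset.mem_insert_of_mem hx))
        (fun x hx => hX2 x (Finset.mem_insert_of_mem hx))
    · refine (hX1 a (Finset.mem_insert_self a s)).trans (hF ?_)
      have hdisj : Disjoint (B (h a - 1)) (insert a s) := by
        rw [Finset.disjoint_right]
        intro x hx hxB
        have hax : h a ≤ h x := by
          rcases Finset.mem_insert.mp hx with rfl | hx'
          · exact le_rfl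
          · exact hmin x hx'
        exact hX2 x hx (hB (Nat.sub_le_sub_right hax 1) hxB)
      have hsub : B (h a - 1) ∪ insert a s ⊆ B i := by
        apply Finset.union_subset
        · exact hB ((Nat.sub_le _ _).trans (hXi a (Finset.mem_insert_self a s)))
        · exact hX
      have hc := Finset.card_le_card hsub
      rw [Finset.card_union_of_disjoint hdisj, Finset.card_insert_of_notMem ha] at hc
      omega

/-- The main inductive estimate. -/
lemma main_estimate (hn : 2 ≤ n)
    (μ : MultilinearMap ℂ (fun _ : Fin n => V) V) (S : Set V) (A : Finset (Fin n))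
    (hA : ∀ p ∈ A, ∀ q ∈ A, p ≠ q → ∀ x : Fin n → V, x p = x q → μ x = 0)
    (F : ℕ → ℕ) (hF : Monotone F) (hFpos : ∀ m, 1 ≤ F m)
    (hFrec : ∀ m, A.card ≤ m → (n - A.card) * F m + ∑ q ∈ Finset.range A.card, F (m - q)
      ≤ F (m + 1))
    (B : ℕ → Finset V) (hB : Monotone B)
    (hspan : ∀ i, Submodule.span ℂ (B i : Set V) = L μ S i) :
    ∀ i, L μ S i ≠ L μ S (i + 1) → i + 1 ≤ F ((B i).card + 1) := by
  classical
  intro i
  induction i using Nat.strong_induction_on with
  | _ i ih =>
  intro hne
  -- a word of length exactly `i + 1` outside `L i`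
  have hex : ∃ w, IsWord μ S (i + 1) w ∧ w ∉ L μ S i := by
    by_contra hcon
    push Not at hcon
    apply hne
    apply le_antisymm (L_mono μ S (Nat.le_succ i))
    conv_lhs => rw [L]
    rw [Submodule.span_le]
    rintro w ⟨l, hl, hw⟩
    rcases Nat.lt_or_ge i l with h | h
    · have : l = i + 1 := by omega
      subst this
      exact hcon w hw
    · exact Submodule.subset_span ⟨l, h, hw⟩
  obtain ⟨w, hw, hwL⟩ := hex
  generalize hl : i + 1 = l at hw
  cases hw with
  | letter hs => exact (hFpos _)
  | @bracket l w hw =>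
    -- choose basis elements
    have hex2 : ∃ b : Fin n → V, (∀ p, b p ∈ B (l p)) ∧ μ b ∉ L μ S i := by
      by_contra hcon
      push Not at hcon
      apply hwL
      apply multilinear_span μ _ (fun p => (B (l p) : Set V)) (fun b hb => hcon b (by simpa using hb))
      intro p
      rw [hspan]
      exact Submodule.subset_span ⟨l p, le_rfl, hw p⟩
    obtain ⟨b, hb, hbL⟩ := hex2
    have hbLl : ∀ p, b p ∈ L μ S (l p) := fun p => by
      rw [← hspan]; exact Submodule.subset_span (hb p)
    have hlpos : ∀ p, 1 ≤ l p := fun p => (hw p).pos (by omega)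
    have hnot : ∀ p, b p ∉ L μ S (l p - 1) := by
      intro p hp
      apply hbL
      have h1 : ∀ q, b q ∈ L μ S (Function.update l p (l p - 1) q) := by
        intro q
        by_cases hq : q = p
        · subst hq; simpa using hp
        · rw [Function.update_of_ne hq]; exact hbLl q
      have h2 := mem_L_sum μ S _ b h1
      apply L_mono μ S _ h2
      rw [Finset.sum_update_of_mem (Finset.mem_univ p)]
      have h3 : l p + ∑ x ∈ Finset.univ \ {p}, l x = ∑ q, l q := by
        rw [← Finset.erase_eq, Finset.add_sum_erase _ _ (Finset.mem_univ p)]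
      have := hlpos p
      omega
    have hnotB : ∀ p, b p ∉ B (l p - 1) := fun p hp =>
      hnot p (by rw [← hspan]; exact Submodule.subset_span hp)
    have hli : ∀ p, l p ≤ i := by
      intro p
      obtain ⟨q, hq⟩ : ∃ q : Fin n, q ≠ p := by
        have : Nontrivial (Fin n) := Fin.nontrivial_iff_two_le.mpr hn
        exact exists_ne p
      have h3 : l p + l q ≤ ∑ r, l r := by
        rw [← Finset.sum_pair hq.symm]
        exact Finset.sum_le_sum_of_subset (Finset.subset_univ _)
      have := hlpos q
      omega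
    have hIH : ∀ p, l p ≤ F ((B (l p - 1)).card + 1) := by
      intro p
      have h1 : L μ S (l p - 1) ≠ L μ S (l p - 1 + 1) := by
        intro heq
        apply hnot p
        rw [heq, Nat.sub_add_cancel (hlpos p)]
        exact hbLl p
      have h2 := ih (l p - 1) (by have := hlpos p; have := hli p; omega) h1
      rwa [Nat.sub_add_cancel (hlpos p)] at h2
    have hcardi : ∀ p, (B (l p - 1)).card + 1 ≤ (B i).card := by
      intro p
      rw [← Finset.card_insert_of_notMem (hnotB p)]
      apply Finset.card_le_card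
      apply Finset.insert_subset
      · exact hB (hli p) (hb p)
      · exact hB ((Nat.sub_le _ _).trans (hli p))
    have hinj : Set.InjOn b (A : Set (Fin n)) := by
      intro p hp q hq hpq
      by_contra hne'
      apply hbL
      rw [hA p hp q hq hne' b hpq]
      exact Submodule.zero_mem _
    -- the rank function
    set h : V → ℕ := fun x => sInf {t | x ∈ B t} with hh
    have hrank : ∀ p, h (b p) = l p := by
      intro p
      apply le_antisymm
      · exact Nat.sInf_le (hb p)
      · by_contra hlt
        push Not at hlt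
        have hmem : b p ∈ B (h (b p)) := Nat.sInf_mem (s := {t | b p ∈ B t}) ⟨l p, hb p⟩
        apply hnotB p
        exact hB (by omega) hmem
    have hXsub : A.image b ⊆ B i := by
      intro x hx
      obtain ⟨p, _, rfl⟩ := Finset.mem_image.mp hx
      exact hB (hli p) (hb p)
    have hcardX : (A.image b).card = A.card := Finset.card_image_of_injOn hinj
    have hsumX := sum_rank_le F hF B hB i h (A.image b) hXsub
      (by
        intro x hx
        obtain ⟨p, _, rfl⟩ := Finset.mem_image.mp hx
        rw [hrank]; exact hli p)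
      (by
        intro x hx
        obtain ⟨p, _, rfl⟩ := Finset.mem_image.mp hx
        rw [hrank]; exact hIH p)
      (by
        intro x hx
        obtain ⟨p, _, rfl⟩ := Finset.mem_image.mp hx
        rw [hrank]; exact hnotB p)
    rw [hcardX, Finset.sum_image hinj] at hsumX
    simp only [hrank] at hsumX
    have hrest : ∑ p ∈ Aᶜ, l p ≤ (n - A.card) * F ((B i).card) := by
      calc ∑ p ∈ Aᶜ, l p ≤ ∑ p ∈ Aᶜ, F ((B i).card) :=
            Finset.sum_le_sum (fun p _ => (hIH p).trans (hF (hcardi p)))
        _ = (n - A.card) * F ((B i).card) := by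
            rw [Finset.sum_const, Finset.card_compl, Fintype.card_fin, smul_eq_mul]
    have hAcard : A.card ≤ (B i).card := by
      rw [← hcardX]; exact Finset.card_le_card hXsub
    have htot : ∑ p, l p = ∑ p ∈ A, l p + ∑ p ∈ Aᶜ, l p := (Finset.sum_add_sum_compl A l).symm
    have := hFrec (B i).card hAcard
    omega

/-- The vanishing form of anticommutativity. -/
lemma vanish_of_anticomm {A C : Finset (Fin n)}
    {μ : MultilinearMap ℂ (fun _ : Fin n => V) V} (h : IsACCommutative A C μ) :
    ∀ p ∈ A, ∀ q ∈ A, p ≠ q → ∀ x : Fin n → V, x p = x q → μ x = 0 := by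
  intro p hp q hq hpq x hx
  have h1 := h.1 p hp q hq hpq x
  have h2 : x ∘ Equiv.swap p q = x := by
    funext r
    simp only [Function.comp_apply]
    by_cases hrp : r = p
    · subst hrp; rw [Equiv.swap_apply_left, hx]
    · by_cases hrq : r = q
      · subst hrq; rw [Equiv.swap_apply_right, hx]
      · rw [Equiv.swap_apply_of_ne_of_ne hrp hrq]
  rw [h2] at h1
  have h3 : (2 : ℂ) • μ x = 0 := by
    rw [two_smul]
    nth_rewrite 1 [h1]
    exact neg_add_cancel _
  exact (smul_eq_zero.mp h3).resolve_left (by norm_num)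

/-- The length bound for any recursively bounding function `F`. -/
lemma algLength_le [FiniteDimensional ℂ V] (hn : 2 ≤ n)
    (μ : MultilinearMap ℂ (fun _ : Fin n => V) V) (A : Finset (Fin n))
    (hA : ∀ p ∈ A, ∀ q ∈ A, p ≠ q → ∀ x : Fin n → V, x p = x q → μ x = 0)
    (F : ℕ → ℕ) (hF : Monotone F) (hFpos : ∀ m, 1 ≤ F m)
    (hFrec : ∀ m, A.card ≤ m → (n - A.card) * F m + ∑ q ∈ Finset.range A.card, F (m - q)
      ≤ F (m + 1)) :
    algLength μ ≤ (F (Module.finrank ℂ V) : ℕ∞) := by
  classical
  refine iSup₂_le ?_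
  intro S hS
  rw [Nat.cast_le]
  -- the filtration reaches the top
  have hTex : ∃ i, 1 ≤ i ∧ L μ (S : Set V) i = ⊤ := by
    obtain ⟨t, ht⟩ := (Module.Finite.fg_top : (⊤ : Submodule ℂ V).FG)
    have h1 : ∀ x : V, ∃ i, x ∈ L μ (S : Set V) i := by
      intro x
      have : x ∈ (⋃ i, (L μ (S : Set V) i : Set V)) := by rw [hS]; trivial
      simpa using this
    choose g hg using h1
    refine ⟨t.sup g + 1, by omega, ?_⟩
    rw [eq_top_iff, ← ht, Submodule.span_le]
    intro x hx
    exact L_mono μ _ ((Finset.le_sup (f := g) hx).trans (Nat.le_succ _)) (hg x)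
  set T := setLength μ (S : Set V) with hT
  have hTmem : 1 ≤ T ∧ L μ (S : Set V) T = ⊤ := Nat.sInf_mem hTex
  rcases Nat.lt_or_ge T 2 with h | h
  · have : T = 1 := by omega
    rw [this]; exact hFpos _
  · have hne : L μ (S : Set V) (T - 1) ≠ ⊤ := by
      intro htop
      have : T ≤ T - 1 := Nat.sInf_le ⟨by omega, htop⟩
      omega
    obtain ⟨B, hB, hBli, hBspan⟩ := exists_adapted (L μ (S : Set V)) (L_mono μ _)
      (L_zero μ _ (by omega))
    have hT1 : T - 1 + 1 = T := by omega
    have key := main_estimate hn μ (S : Set V) A hA F hF hFpos hFrec B hB hBspan (T - 1)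
      (by rw [hT1, hTmem.2]; exact hne)
    rw [hT1] at key
    refine key.trans (hF ?_)
    have hcard : ∀ i, (B i).card = Module.finrank ℂ (L μ (S : Set V) i) := by
      intro i
      rw [← hBspan i]
      have := finrank_span_finset_eq_card (hBli i)
      exact this.symm
    rw [hcard]
    have := Submodule.finrank_lt hne
    omega

end Proof

section Fibonacci

lemma nthPrime_inj : Function.Injective (Nat.nth Nat.Prime) :=
  (Nat.nth_strictMono Nat.infinite_setOfPred_prime).injective

lemma primeCounting_nth (i : ℕ) : Nat.primeCounting (Nat.nth Nat.Prime i) = i + 1 := by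
  rw [Nat.primeCounting_eq_primeCounting'_succ, Nat.primeCounting', Nat.count_succ,
    Nat.count_nth_of_infinite Nat.infinite_setOfPred_prime, if_pos (Nat.prime_nth_prime i)]

lemma Nna_factorization (n a : ℕ) (q : ℕ) : (Nna n a).factorization q =
    (if q = 2 then n - a + 1 else 0) +
      ∑ i ∈ Finset.Ico 1 a, (if q = Nat.nth Nat.Prime i then 1 else 0) := by
  classical
  rw [Nna, Nat.factorization_mul (by positivity)
    (Finset.prod_ne_zero_iff.mpr fun i _ => (Nat.prime_nth_prime i).ne_zero),
    Nat.factorization_prod (fun i _ => (Nat.prime_nth_prime i).ne_zero),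
    Nat.factorization_pow, Finsupp.add_apply, Finsupp.finsetSum_apply]
  congr 1
  · rw [Finsupp.smul_apply, Nat.prime_two.factorization, Finsupp.single_apply]
    by_cases h : q = 2
    · subst h; simp
    · rw [if_neg h, if_neg (Ne.symm h)]; simp
  · apply Finset.sum_congr rfl
    intro i _
    rw [(Nat.prime_nth_prime i).factorization, Finsupp.single_apply]
    by_cases h : q = Nat.nth Nat.Prime i
    · rw [if_pos h, if_pos h.symm]
    · rw [if_neg h, if_neg (Ne.symm h)]

lemma Nna_factorization_nth (n a j : ℕ) : (Nna n a).factorization (Nat.nth Nat.Prime j) =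
    (if j = 0 then n - a + 1 else 0) + (if 1 ≤ j ∧ j < a then 1 else 0) := by
  rw [Nna_factorization]
  congr 1
  · by_cases h : j = 0
    · subst h; rw [Nat.nth_prime_zero_eq_two]; simp
    · rw [if_neg h, if_neg]
      intro h2
      rw [← Nat.nth_prime_zero_eq_two] at h2
      exact h (nthPrime_inj h2)
  · have h1 : ∀ i, (Nat.nth Nat.Prime j = Nat.nth Nat.Prime i) ↔ (j = i) :=
      fun i => nthPrime_inj.eq_iff
    simp only [h1, Finset.sum_ite_eq, Finset.mem_Ico]

lemma topIndex_Nna (n a : ℕ) (ha : 1 ≤ a) : topIndex (Nna n a) = a := by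
  have hmem : ∀ q, q ∈ (Nna n a).primeFactors ↔ (Nna n a).factorization q ≠ 0 := by
    intro q
    rw [← Nat.support_factorization, Finsupp.mem_support_iff]
  apply le_antisymm
  · rw [topIndex]
    apply Finset.sup_le
    intro q hq
    rw [hmem, Nna_factorization] at hq
    by_cases h2 : q = 2
    · rw [h2, ← Nat.nth_prime_zero_eq_two, primeCounting_nth]; omega
    · rw [if_neg h2, zero_add] at hq
      obtain ⟨i, hi, hi2⟩ := Finset.exists_ne_zero_of_sum_ne_zero hq
      have h3 : q = Nat.nth Nat.Prime i := by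
        by_contra h; rw [if_neg h] at hi2; exact hi2 rfl
      rw [h3, primeCounting_nth]
      rw [Finset.mem_Ico] at hi
      omega
  · have h1 : Nat.nth Nat.Prime (a - 1) ∈ (Nna n a).primeFactors := by
      rw [hmem, Nna_factorization_nth]
      by_cases h : a = 1
      · subst h; simp
      · rw [if_pos (show 1 ≤ a - 1 ∧ a - 1 < a by omega)]
        omega
    have h2 := Finset.le_sup (f := Nat.primeCounting) h1
    rw [primeCounting_nth] at h2
    rw [topIndex]
    omega

lemma genFib_of_le {n a m : ℕ} (ha : 1 ≤ a) (hm : m ≤ a) : genFib (Nna n a) m = 1 := by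
  rw [genFib, dif_pos]
  rwa [topIndex_Nna n a ha]

lemma genFib_succ {n a m : ℕ} (ha : 1 ≤ a) (hm : a ≤ m) :
    genFib (Nna n a) (m + 1) =
      (n - a) * genFib (Nna n a) m + ∑ q ∈ Finset.range a, genFib (Nna n a) (m - q) := by
  conv_lhs => rw [genFib]
  rw [dif_neg (by rw [topIndex_Nna n a ha]; omega)]
  rw [Fin.sum_univ_eq_sum_range
    (fun i => (Nna n a).factorization (Nat.nth Nat.Prime i) * genFib (Nna n a) (m + 1 - 1 - i))
    (topIndex (Nna n a)), topIndex_Nna n a ha]
  obtain ⟨b, rfl⟩ : ∃ b, a = b + 1 := ⟨a - 1, by omega⟩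
  rw [Finset.sum_range_succ', Finset.sum_range_succ' (fun q => genFib (Nna n (b + 1)) (m - q))]
  have h1 : ∀ i ∈ Finset.range b,
      (Nna n (b + 1)).factorization (Nat.nth Nat.Prime (i + 1)) *
        genFib (Nna n (b + 1)) (m + 1 - 1 - (i + 1)) = genFib (Nna n (b + 1)) (m - (i + 1)) := by
    intro i hi
    rw [Finset.mem_range] at hi
    rw [Nna_factorization_nth, if_neg (by omega), if_pos (by omega), Nat.add_sub_cancel]
    ring
  rw [Finset.sum_congr rfl h1, Nna_factorization_nth, if_pos rfl, if_neg (by omega)]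
  simp only [Nat.add_sub_cancel, Nat.sub_zero]
  ring

lemma genFib_pos {n a : ℕ} (ha : 1 ≤ a) (m : ℕ) : 1 ≤ genFib (Nna n a) m := by
  induction m using Nat.strong_induction_on with
  | _ m ih =>
  rcases Nat.lt_or_ge a m with h | h
  · obtain ⟨k, rfl⟩ : ∃ k, m = k + 1 := ⟨m - 1, by omega⟩
    rw [genFib_succ ha (by omega)]
    calc 1 ≤ genFib (Nna n a) (k - 0) := ih _ (by omega)
      _ ≤ ∑ q ∈ Finset.range a, genFib (Nna n a) (k - q) :=
          Finset.single_le_sum (f := fun q => genFib (Nna n a) (k - q))
            (fun _ _ => Nat.zero_le _) (Finset.mem_range.mpr (by omega))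
      _ ≤ _ := Nat.le_add_left _ _
  · rw [genFib_of_le ha h]

lemma genFib_mono {n a : ℕ} (ha : 1 ≤ a) : Monotone (genFib (Nna n a)) := by
  apply monotone_nat_of_le_succ
  intro m
  rcases Nat.lt_or_ge m a with h | h
  · rw [genFib_of_le ha (by omega), genFib_of_le ha (by omega)]
  · rw [genFib_succ ha h]
    calc genFib (Nna n a) m = genFib (Nna n a) (m - 0) := rfl
      _ ≤ ∑ q ∈ Finset.range a, genFib (Nna n a) (m - q) :=
          Finset.single_le_sum (f := fun q => genFib (Nna n a) (m - q))
            (fun _ _ => Nat.zero_le _) (Finset.mem_range.mpr (by omega))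
      _ ≤ _ := Nat.le_add_left _ _

end Fibonacci

/-- **The length bound.** Every `k`-dimensional `(A,C)`-commutative `n`-ary algebra over `ℂ`
has length at most `F_{N_{n,a}}(k)`. -/
theorem result :
    ∀ (n : ℕ), 2 ≤ n → ∀ (A C : Finset (Fin n)), Disjoint A C → A.card ≠ 1 →
    ∀ (k : ℕ), 1 ≤ k →
    ∀ (V : Type u) [AddCommGroup V] [Module ℂ V] [FiniteDimensional ℂ V],
      Module.finrank ℂ V = k →
    ∀ μ : MultilinearMap ℂ (fun _ : Fin n => V) V, IsACCommutative A C μ →
      algLength μ ≤ (genFib (Nna n (effCard A.card)) k : ℕ∞) := by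
  intro n hn A C _ hA1 k _ V _ _ _ hk μ hμ
  subst hk
  rcases Nat.lt_or_ge A.card 2 with h | h
  · have h0 : A.card = 0 := by omega
    have heff : effCard A.card = 1 := by rw [effCard, if_neg (by omega)]
    rw [heff]
    have hcard : ({⟨0, by omega⟩} : Finset (Fin n)).card = 1 := Finset.card_singleton _
    apply algLength_le hn μ {⟨0, by omega⟩} _ (genFib (Nna n 1)) (genFib_mono le_rfl)
      (genFib_pos le_rfl)
    · intro m hm
      rw [hcard] at hm ⊢
      exact (genFib_succ le_rfl hm).ge
    · intro p hp q hq hpq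
      rw [Finset.mem_singleton] at hp hq
      exact absurd (hp.trans hq.symm) hpq
  · have heff : effCard A.card = A.card := by rw [effCard, if_pos h]
    rw [heff]
    apply algLength_le hn μ A (vanish_of_anticomm hμ) (genFib (Nna n A.card))
      (genFib_mono (by omega)) (genFib_pos (by omega))
    intro m hm
    exact (genFib_succ (by omega) hm).ge

end Pool.Agent.Results.MP_dca5dd_al.LengthBound
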